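import Pool.Agent.Y100.FF.PiE

/-!
# Moments of linear functions of independent exponential variables: the statement
-/

set_option autoImplicit false

namespace Pool.Agent.Y100.FF

open MeasureTheory Set ProbabilityTheory
open scoped ENNReal InnerProductSpace
open Pool.Agent.W695.KH (Eu)
open Pool.Agent.Y506.FF

theorem cen_int (k : ℕ) : Integrable (fun x : ℝ => (x - 1) ^ k) P1 := by
  simp only [sub_eq_add_neg, add_pow]
  exact integrable_finsetSum _ fun m _ => ((mom1 m).1.mul_const _).mul_const _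

theorem cen_val (k : ℕ) : ∫ x, (x - 1) ^ k ∂P1 =
    ∑ m ∈ Finset.range (k + 1), (m.factorial : ℝ) * (-1) ^ (k - m) * (k.choose m : ℝ) := by
  simp only [sub_eq_add_neg, add_pow]
  rw [integral_finsetSum _ (fun m _ => ((mom1 m).1.mul_const _).mul_const _)]
  refine Finset.sum_congr rfl fun m _ => ?_
  rw [integral_mul_const, integral_mul_const, (mom1 m).2]

theorem c0 : ∫ x, (x - 1) ^ 0 ∂P1 = 1 := by
  rw [cen_val]
  simp

theorem c1 : ∫ x, (x - 1) ^ 1 ∂P1 = 0 := by
  rw [cen_val]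
  simp [Finset.sum_range_succ]

theorem c2 : ∫ x, (x - 1) ^ 2 ∂P1 = 1 := by
  rw [cen_val]
  norm_num [Finset.sum_range_succ, Nat.factorial]

theorem c3 : ∫ x, (x - 1) ^ 3 ∂P1 = 2 := by
  rw [cen_val]
  norm_num [Finset.sum_range_succ, Nat.factorial, Nat.choose]

theorem c4 : ∫ x, (x - 1) ^ 4 ∂P1 = 9 := by
  rw [cen_val]
  norm_num [Finset.sum_range_succ, Nat.factorial, Nat.choose]

set_option linter.unusedSectionVars false

variable {ι : Type} [Fintype ι]

/-- the product law -/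
noncomputable abbrev mu (ι : Type) [Fintype ι] : Measure (ι → ℝ) := Measure.pi fun _ : ι => P1

/-- one term -/
def tf (a : ι → ℝ) (i : ι) : (ι → ℝ) → ℝ := fun t => a i * (t i - 1)

theorem tf_meas (a : ι → ℝ) (i : ι) : Measurable (tf a i) := by
  unfold tf
  fun_prop

theorem tf_int (a : ι → ℝ) (i : ι) (k : ℕ) : Integrable (fun t => tf a i t ^ k) (mu ι) ∧
    ∫ t, tf a i t ^ k ∂(mu ι) = a i ^ k * ∫ x, (x - 1) ^ k ∂P1 := by
  have e : ∀ t : ι → ℝ, tf a i t ^ k = a i ^ k * (fun x : ℝ => (x - 1) ^ k) (t i) := fun t =>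
    mul_pow _ _ _
  simp only [e]
  refine ⟨(integrable_comp_eval (μ := fun _ : ι => P1) (cen_int k)).const_mul _, ?_⟩
  rw [integral_const_mul, integral_comp_eval (μ := fun _ : ι => P1)
    (cen_int k).aestronglyMeasurable]

theorem tf_ind (a : ι → ℝ) : iIndepFun (tf a) (mu ι) :=
  iIndepFun_pi (μ := fun _ : ι => P1) (X := fun i x => a i * (x - 1)) fun i =>
    (by fun_prop : Measurable fun x : ℝ => a i * (x - 1)).aemeasurable

/-- moments of a sum of independent functions -/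
theorem add_mom {S Z : (ι → ℝ) → ℝ} (h : IndepFun S Z (mu ι)) (hSi : ∀ k : ℕ, Integrable
    (fun t => S t ^ k) (mu ι)) (hZi : ∀ k : ℕ, Integrable (fun t => Z t ^ k) (mu ι)) (n : ℕ) :
    Integrable (fun t => (S t + Z t) ^ n) (mu ι) ∧ ∫ t, (S t + Z t) ^ n ∂(mu ι) =
      ∑ m ∈ Finset.range (n + 1), (∫ t, S t ^ m ∂(mu ι)) * (∫ t, Z t ^ (n - m) ∂(mu ι)) *
        (n.choose m : ℝ) := by
  have h1 : ∀ p q : ℕ, IndepFun (fun t => S t ^ p) (fun t => Z t ^ q) (mu ι) := fun p q =>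
    h.comp (by fun_prop : Measurable fun x : ℝ => x ^ p) (by fun_prop : Measurable fun x : ℝ => x ^ q)
  have h2 : ∀ p q : ℕ, Integrable (fun t => S t ^ p * Z t ^ q) (mu ι) := fun p q =>
    (h1 p q).integrable_mul (hSi p) (hZi q)
  simp only [add_pow]
  refine ⟨integrable_finsetSum _ fun m _ => (h2 _ _).mul_const _, ?_⟩
  rw [integral_finsetSum _ (fun m _ => (h2 _ _).mul_const _)]
  refine Finset.sum_congr rfl fun m _ => ?_
  rw [integral_mul_const, (h1 m (n - m)).integral_fun_mul_eq_mul_integral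
    (hSi m).aestronglyMeasurable (hZi (n - m)).aestronglyMeasurable]

theorem moments (a : ι → ℝ) (A : Finset ι) :
    (∀ k : ℕ, Integrable (fun t => (∑ j ∈ A, tf a j) t ^ k) (mu ι)) ∧
    ∫ t, (∑ j ∈ A, tf a j) t ^ 1 ∂(mu ι) = 0 ∧
    ∫ t, (∑ j ∈ A, tf a j) t ^ 2 ∂(mu ι) = ∑ j ∈ A, a j ^ 2 ∧
    ∫ t, (∑ j ∈ A, tf a j) t ^ 4 ∂(mu ι) ≤ 9 * (∑ j ∈ A, a j ^ 2) ^ 2 := by
  classical
  induction A using Finset.induction_on with
  | empty =>
    simp only [Finset.sum_empty, Pi.zero_apply]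
    refine ⟨fun k => integrable_const _, ?_, ?_, ?_⟩ <;> simp
  | insert i A hi ih =>
    obtain ⟨h1, h2, h3, h4⟩ := ih
    have hind : IndepFun (∑ j ∈ A, tf a j) (tf a i) (mu ι) :=
      (tf_ind a).indepFun_finsetSum_of_notMem (tf_meas a) hi
    have hadd := add_mom hind h1 (fun k => (tf_int a i k).1)
    have e : ∀ t, (∑ j ∈ insert i A, tf a j) t = (∑ j ∈ A, tf a j) t + tf a i t := by
      intro t
      rw [Finset.sum_insert hi, Pi.add_apply, add_comm]
    simp only [e]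
    have z0 : ∫ t, (∑ j ∈ A, tf a j) t ^ 0 ∂(mu ι) = 1 := by simp
    have g0 := (tf_int a i 0).2
    have g1 := (tf_int a i 1).2
    have g2 := (tf_int a i 2).2
    have g3 := (tf_int a i 3).2
    have g4 := (tf_int a i 4).2
    rw [c0] at g0
    rw [c1] at g1
    rw [c2] at g2
    rw [c3] at g3
    rw [c4] at g4
    refine ⟨fun k => (hadd k).1, ?_, ?_, ?_⟩
    · rw [(hadd 1).2, Finset.sum_range_succ, Finset.sum_range_one]
      simp only [Nat.sub_zero, Nat.sub_self, z0, h2, g0, g1]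
      ring
    · rw [(hadd 2).2, Finset.sum_range_succ, Finset.sum_range_succ, Finset.sum_range_one]
      simp only [Nat.sub_zero, Nat.sub_self, z0, h2, h3, g0, g2, Nat.reduceSub, g1]
      rw [Finset.sum_insert hi]
      norm_num
    · rw [(hadd 4).2, Finset.sum_range_succ, Finset.sum_range_succ, Finset.sum_range_succ,
        Finset.sum_range_succ, Finset.sum_range_one]
      simp only [Nat.sub_zero, Nat.sub_self, z0, h2, h3, g0, g2, Nat.reduceSub, g1, g3, g4]
      rw [Finset.sum_insert hi]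
      set V := ∑ j ∈ A, a j ^ 2 with hV
      have hV0 : 0 ≤ V := Finset.sum_nonneg fun j _ => sq_nonneg _
      have hc : ((Nat.choose 4 2 : ℕ) : ℝ) = 6 := by norm_num [Nat.choose]
      have hc3 : ((Nat.choose 4 3 : ℕ) : ℝ) = 4 := by norm_num [Nat.choose]
      rw [hc, hc3]
      set I4 : ℝ := ∫ t, (∑ j ∈ A, tf a j) t ^ 4 ∂(mu ι) with hI4
      clear_value I4
      norm_num
      nlinarith [mul_nonneg hV0 (sq_nonneg (a i))]

/-! ### The statement -/

theorem sum_tf (a : ι → ℝ) (t : ι → ℝ) : (∑ j, tf a j) t = ∑ j, a j * (t j - 1) := by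
  rw [Finset.sum_apply]
  rfl

theorem inner_eq (a : Eu ι) (t : ι → ℝ) :
    ⟪a, WithLp.toLp 2 t - one⟫_ℝ = (∑ j, tf (fun i => a i) j) t := by
  rw [sum_tf, PiLp.inner_apply]
  refine Finset.sum_congr rfl fun i _ => ?_
  rw [RCLike.inner_apply]
  simp [one, mul_comm]

theorem norm_eq (a : Eu ι) : ‖a‖ ^ 2 = ∑ j, a j ^ 2 := by
  rw [EuclideanSpace.norm_sq_eq]
  refine Finset.sum_congr rfl fun i _ => ?_
  rw [Real.norm_eq_abs, sq_abs]

/-- MOM -/
theorem mom : S_MOM := by
  intro ι _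
  have hin : ∀ a : Eu ι, Measurable fun s : Eu ι => ⟪a, s - one⟫_ℝ := fun a => by fun_prop
  refine ⟨?_, ?_, ?_, ?_, ?_⟩
  · have h := eu_e0 (ι := ι) (F := fun _ => 1) measurable_const
    simp only [one_mul, lintegral_const, measure_univ] at h
    exact h
  · intro a
    rw [eu_e0 (F := fun s => ENNReal.ofReal ⟪a, s - one⟫_ℝ) (hin a).ennreal_ofReal,
      eu_e0 (F := fun s => ENNReal.ofReal (-⟪a, s - one⟫_ℝ)) (hin a).neg.ennreal_ofReal]
    simp only [inner_eq]
    obtain ⟨h1, h2, -, -⟩ := moments (fun i => a i) Finset.univ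
    have h3 := h1 1
    simp only [pow_one] at h2 h3
    have h4 := integral_eq_lintegral_pos_part_sub_lintegral_neg_part h3
    rw [h2] at h4
    have f1 : ∫⁻ t, ENNReal.ofReal ((∑ j, tf (fun i => a i) j) t) ∂(mu ι) ≠ ∞ :=
      h3.lintegral_lt_top.ne
    have f2 : ∫⁻ t, ENNReal.ofReal (-(∑ j, tf (fun i => a i) j) t) ∂(mu ι) ≠ ∞ :=
      h3.neg.lintegral_lt_top.ne
    exact (ENNReal.toReal_eq_toReal_iff' f1 f2).mp (by linarith)
  · intro a
    rw [eu_e0 (F := fun s => ENNReal.ofReal (⟪a, s - one⟫_ℝ ^ 2))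
      ((hin a).pow_const 2).ennreal_ofReal]
    simp only [inner_eq]
    obtain ⟨h1, -, h3, -⟩ := moments (fun i => a i) Finset.univ
    rw [← ofReal_integral_eq_lintegral_ofReal (h1 2)
      (Filter.Eventually.of_forall fun t => sq_nonneg _), h3, norm_eq]
  · intro a
    rw [eu_e0 (F := fun s => ENNReal.ofReal (⟪a, s - one⟫_ℝ ^ 4))
      ((hin a).pow_const 4).ennreal_ofReal]
    simp only [inner_eq]
    obtain ⟨h1, -, -, h4⟩ := moments (fun i => a i) Finset.univ
    rw [← ofReal_integral_eq_lintegral_ofReal (h1 4)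
      (Filter.Eventually.of_forall fun t => by positivity)]
    apply ENNReal.ofReal_le_ofReal
    refine h4.trans (le_of_eq ?_)
    have e : ‖a‖ ^ 4 = (‖a‖ ^ 2) ^ 2 := by ring
    rw [e, norm_eq]
  · intro i
    rw [eu_e0 (F := fun s => ENNReal.ofReal (s i ^ 2)) (by fun_prop)]
    have h1 := integrable_comp_eval (μ := fun _ : ι => P1) (i := i) (mom1 2).1
    have h2 := integral_comp_eval (μ := fun _ : ι => P1) (i := i)
      (mom1 2).1.aestronglyMeasurable
    rw [(mom1 2).2] at h2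
    have h3 := ofReal_integral_eq_lintegral_ofReal h1
      (Filter.Eventually.of_forall fun t => sq_nonneg _)
    rw [h2] at h3
    refine h3.symm.trans ?_
    norm_num [Nat.factorial]

end Pool.Agent.Y100.FF
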