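import Pool.Agent.Y506.FF.Stm

/-!
# Moments of linear functions of independent exponential variables
-/

set_option autoImplicit false

namespace Pool.Agent.Y100.FF

open MeasureTheory Set ProbabilityTheory
open scoped ENNReal InnerProductSpace
open Pool.Agent.W695.KH (Eu)
open Pool.Agent.Y506.FF

/-- the exponential law -/
noncomputable def P1 : Measure ℝ := volume.withDensity e0

theorem e0_eq (s : ℝ) : e0 s = ENNReal.ofReal ((Ici (0 : ℝ)).indicator (fun x => Real.exp (-x)) s) := by
  unfold e0
  by_cases h : 0 ≤ s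
  · rw [if_pos h, indicator_of_mem (mem_Ici.mpr h)]
  · rw [if_neg h, indicator_of_notMem (fun h' => h (mem_Ici.mp h')), ENNReal.ofReal_zero]

theorem g_nonneg (s : ℝ) : 0 ≤ (Ici (0 : ℝ)).indicator (fun x => Real.exp (-x)) s :=
  indicator_nonneg (fun _ _ => (Real.exp_pos _).le) s

theorem e0_toReal (s : ℝ) : (e0 s).toReal = (Ici (0 : ℝ)).indicator (fun x => Real.exp (-x)) s := by
  rw [e0_eq, ENNReal.toReal_ofReal (g_nonneg s)]

theorem e0_meas : Measurable e0 := by
  have h : e0 = fun s => ENNReal.ofReal ((Ici (0 : ℝ)).indicator (fun x => Real.exp (-x)) s) :=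
    funext e0_eq
  rw [h]
  exact ((by fun_prop : Measurable fun x : ℝ => Real.exp (-x)).indicator
    measurableSet_Ici).ennreal_ofReal

theorem e0_lt (s : ℝ) : e0 s < ∞ := by
  rw [e0_eq]
  exact ENNReal.ofReal_lt_top

/-- the moments of the exponential law -/
theorem mom1 (k : ℕ) : Integrable (fun x : ℝ => x ^ k) P1 ∧
    ∫ x, x ^ k ∂P1 = (k.factorial : ℝ) := by
  have h1 : IntegrableOn (fun x : ℝ => Real.exp (-x) * x ^ k) (Ioi 0) := by
    have h := Real.GammaIntegral_convergent (s := (k : ℝ) + 1) (by positivity)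
    refine h.congr_fun (fun x _ => ?_) measurableSet_Ioi
    simp only [add_sub_cancel_right, Real.rpow_natCast]
  have h2 : ∫ x in Ioi (0 : ℝ), Real.exp (-x) * x ^ k = (k.factorial : ℝ) := by
    rw [← Real.Gamma_nat_eq_factorial, Real.Gamma_eq_integral (by positivity)]
    refine setIntegral_congr_fun measurableSet_Ioi fun x _ => ?_
    simp only [add_sub_cancel_right, Real.rpow_natCast]
  have e1 : (fun x : ℝ => x ^ k * (e0 x).toReal) =
      (Ici (0 : ℝ)).indicator fun x => Real.exp (-x) * x ^ k := by
    funext x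
    rw [e0_toReal]
    by_cases h : x ∈ Ici (0 : ℝ)
    · rw [indicator_of_mem h, indicator_of_mem h, mul_comm]
    · rw [indicator_of_notMem h, indicator_of_notMem h, mul_zero]
  have hae : ∀ᵐ x ∂(volume : Measure ℝ), e0 x < ∞ := Filter.Eventually.of_forall e0_lt
  constructor
  · unfold P1
    rw [integrable_withDensity_iff e0_meas hae, e1, integrable_indicator_iff measurableSet_Ici,
      integrableOn_Ici_iff_integrableOn_Ioi]
    exact h1
  · unfold P1
    rw [integral_withDensity_eq_integral_toReal_smul e0_meas hae]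
    have e2 : (fun x : ℝ => (e0 x).toReal • x ^ k) =
        (Ici (0 : ℝ)).indicator fun x => Real.exp (-x) * x ^ k := by
      rw [← e1]
      funext x
      rw [smul_eq_mul, mul_comm]
    rw [e2, integral_indicator measurableSet_Ici, integral_Ici_eq_integral_Ioi, h2]

instance : IsProbabilityMeasure P1 := by
  obtain ⟨h1, h2⟩ := mom1 0
  simp only [pow_zero, Nat.factorial_zero, Nat.cast_one] at h1 h2
  have hf : IsFiniteMeasure P1 := by
    rcases (integrable_const_iff.mp h1) with h | h
    · exact absurd h one_ne_zero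
    · exact h
  rw [integral_const, smul_eq_mul, mul_one] at h2
  constructor
  unfold Measure.real at h2
  rwa [ENNReal.toReal_eq_one_iff] at h2

variable {ι : Type} [Fintype ι]

theorem lint_prod (h : ι → ℝ → ℝ) (h0 : ∀ i x, 0 ≤ h i x) (hi : ∀ i, Integrable (h i)) :
    ∫⁻ t : ι → ℝ, ∏ i, ENNReal.ofReal (h i (t i)) = ∏ i, ∫⁻ x, ENNReal.ofReal (h i x) := by
  have e1 : ∀ t : ι → ℝ, ∏ i, ENNReal.ofReal (h i (t i)) = ENNReal.ofReal (∏ i, h i (t i)) :=
    fun t => (ENNReal.ofReal_prod_of_nonneg fun i _ => h0 i (t i)).symm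
  simp only [e1]
  have h1 : Integrable (fun t : ι → ℝ => ∏ i, h i (t i)) := Integrable.fintype_prod hi
  rw [← ofReal_integral_eq_lintegral_ofReal h1
    (Filter.Eventually.of_forall fun t => Finset.prod_nonneg fun i _ => h0 i (t i)),
    integral_fintype_prod_volume_eq_prod, ENNReal.ofReal_prod_of_nonneg
      (fun i _ => integral_nonneg (h0 i))]
  refine Finset.prod_congr rfl fun i _ => ?_
  rw [ofReal_integral_eq_lintegral_ofReal (hi i) (Filter.Eventually.of_forall (h0 i))]

theorem g_int : Integrable ((Ici (0 : ℝ)).indicator fun x => Real.exp (-x)) := by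
  rw [integrable_indicator_iff measurableSet_Ici, integrableOn_Ici_iff_integrableOn_Ioi]
  have h := Real.GammaIntegral_convergent (s := 1) one_pos
  refine h.congr_fun (fun x _ => ?_) measurableSet_Ioi
  simp

/-- the product density and the product measure -/
theorem pi_e0' : (volume : Measure (ι → ℝ)).withDensity (fun t => ∏ i, e0 (t i)) =
    Measure.pi fun _ : ι => P1 := by
  classical
  symm
  refine Measure.pi_eq fun s hs => ?_
  rw [withDensity_apply _ (MeasurableSet.univ_pi hs), ← lintegral_indicator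
    (MeasurableSet.univ_pi hs)]
  have e1 : (fun t : ι → ℝ => (univ.pi s).indicator (fun t : ι → ℝ => ∏ i, e0 (t i)) t) =
      fun t => ∏ i, ENNReal.ofReal (((s i).indicator
        ((Ici (0 : ℝ)).indicator fun x => Real.exp (-x))) (t i)) := by
    funext t
    by_cases h : t ∈ univ.pi s
    · rw [indicator_of_mem h]
      refine Finset.prod_congr rfl fun i _ => ?_
      rw [indicator_of_mem (h i (mem_univ i)), e0_eq]
    · rw [indicator_of_notMem h]
      have h2 : ∃ i, t i ∉ s i := by
        by_contra hcon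
        push Not at hcon
        exact h fun i _ => hcon i
      obtain ⟨i, hi⟩ := h2
      symm
      refine Finset.prod_eq_zero (Finset.mem_univ i) ?_
      rw [indicator_of_notMem hi, ENNReal.ofReal_zero]
  have e2 := lint_prod (fun i => (s i).indicator
    ((Ici (0 : ℝ)).indicator fun x => Real.exp (-x)))
    (fun i x => indicator_nonneg (fun x _ => g_nonneg x) x) (fun i => g_int.indicator (hs i))
  rw [e1, e2]
  refine Finset.prod_congr rfl fun i _ => ?_
  unfold P1
  rw [withDensity_apply _ (hs i), ← lintegral_indicator (hs i)]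
  refine lintegral_congr fun x => ?_
  by_cases h : x ∈ s i
  · rw [indicator_of_mem h, indicator_of_mem h, e0_eq]
  · rw [indicator_of_notMem h, indicator_of_notMem h, ENNReal.ofReal_zero]

theorem prod_meas : Measurable fun t : ι → ℝ => ∏ i, e0 (t i) :=
  Finset.measurable_prod _ fun i _ => e0_meas.comp (measurable_pi_apply i)

/-- integrals against the product density -/
theorem pi_e0 {F : (ι → ℝ) → ℝ≥0∞} (hF : Measurable F) :
    ∫⁻ t : ι → ℝ, F t * ∏ i, e0 (t i) = ∫⁻ t, F t ∂(Measure.pi fun _ : ι => P1) := by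
  rw [← pi_e0', lintegral_withDensity_eq_lintegral_mul _ prod_meas hF]
  refine lintegral_congr fun t => ?_
  rw [Pi.mul_apply, mul_comm]

theorem rho_meas : Measurable (rho : Eu ι → ℝ≥0∞) := by
  unfold rho
  refine Finset.measurable_prod _ fun i _ => e0_meas.comp ?_
  fun_prop

/-- integrals against the density `rho` -/
theorem eu_e0 {F : Eu ι → ℝ≥0∞} (hF : Measurable F) :
    ∫⁻ s : Eu ι, F s * rho s =
      ∫⁻ t, F (WithLp.toLp 2 t) ∂(Measure.pi fun _ : ι => P1) := by
  have h1 := (PiLp.volume_preserving_toLp ι).lintegral_comp (hF.mul rho_meas)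
  have h2 : Measurable fun t : ι → ℝ => F (WithLp.toLp 2 t) :=
    hF.comp (PiLp.volume_preserving_toLp ι).measurable
  rw [← pi_e0 h2]
  exact h1.symm

end Pool.Agent.Y100.FF
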